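import Pool.Agent.Run7.h603.Guess
import Pool.Agent.Run7.h603.Club

/-!
# The coloring axiom for trees and the continuum hypothesis: clubs decide clopen sets

Assume CAT and `2 ^ ℵ₀ < 2 ^ ℵ₁` (for instance CAT and the continuum hypothesis). For each
`δ < ω₁` let a countable family of clopen subsets `X δ 0, X δ 1, ...` of `δ` (with the order
topology) be given. Then there are a club `E` and stationarily many limit points `δ` of `E` such
that `E ∩ δ` decides the whole family of `δ`: for every `n`, a final segment of `E ∩ δ` is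
contained in `X δ n` or disjoint from `X δ n`.

So, under CH, CAT is refuted by every choice of countably many clopen subsets of each `δ < ω₁`
such that, for every club `E`, at club many limit points `δ` of `E` one of the chosen subsets of
`δ` splits `E ∩ δ` into two cofinal pieces.
-/

set_option autoImplicit false

open Set Run7.h603

theorem Pool.Agent.Results.MP_2fee04_lc.ClubsDecideClopenSets.result
    (hCAT : CAT) (hwd : (2 : Cardinal.{0}) ^ Cardinal.aleph 0 < 2 ^ Cardinal.aleph 1)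
    (X : Ordinal.{0} → ℕ → Set Ordinal.{0})
    (hX : ∀ δ < Ordinal.omega.{0} 1, ∀ n, ∀ β < δ, Order.IsSuccLimit β →
      ∃ ξ < β, ∀ α, ξ < α → α < β → (α ∈ X δ n ↔ β ∈ X δ n)) :
    ∃ E : Set Ordinal.{0}, IsClubOmegaOne E ∧ ∀ D, IsClubOmegaOne D → ∃ δ ∈ D,
      (∀ α < δ, ∃ β ∈ E, α < β ∧ β < δ) ∧ ∀ n, ∃ ξ < δ,
        (∀ α ∈ E, ξ < α → α < δ → α ∈ X δ n) ∨ (∀ α ∈ E, ξ < α → α < δ → α ∉ X δ n) := by
  have hwd' : (2 : Cardinal.{0}) ^ Cardinal.aleph0.{0} < 2 ^ Cardinal.aleph.{0} 1 := by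
    rw [← Cardinal.aleph_zero]
    exact hwd
  obtain ⟨E, hE, hst⟩ := (cat_iff_catL.1 hCAT).clopen hwd'
    (fun δ n => {α | ordOf α ∈ X (ordOf δ) n}) (by
      intro δ n β hβ hl
      obtain ⟨ξ, h1, h2⟩ := hX (ordOf δ) (ordOf_lt δ) n (ordOf β) (ordOf_lt_iff.2 hβ)
        (isSuccLimit_ordOf.2 hl)
      obtain ⟨x, rfl⟩ := exists_ordOf (h1.trans (ordOf_lt β))
      exact ⟨x, ordOf_lt_iff.1 h1, fun α hα hαβ => h2 (ordOf α) (ordOf_lt_iff.2 hα)
        (ordOf_lt_iff.2 hαβ)⟩)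
  refine ⟨ordOf '' E, isClubOmegaOne_image hE, fun D hD => ?_⟩
  obtain ⟨d, ⟨hdE, hd⟩, hdD⟩ := hst (isClub_of_isClubOmegaOne hD)
  refine ⟨ordOf d, hdD, ?_, fun n => ?_⟩
  · intro α hα
    obtain ⟨a, rfl⟩ := exists_ordOf (hα.trans (ordOf_lt d))
    obtain ⟨b, hb, h1, h2⟩ := hdE.2 a (ordOf_lt_iff.1 hα)
    exact ⟨ordOf b, ⟨b, hb, rfl⟩, ordOf_lt_iff.2 h1, ordOf_lt_iff.2 h2⟩
  · obtain ⟨ξ, hξ, h1 | h1⟩ := hd n
    · refine ⟨ordOf ξ, ordOf_lt_iff.2 hξ, Or.inl ?_⟩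
      rintro _ ⟨a, ha, rfl⟩ h2 h3
      exact h1 a ha (ordOf_lt_iff.1 h2) (ordOf_lt_iff.1 h3)
    · refine ⟨ordOf ξ, ordOf_lt_iff.2 hξ, Or.inr ?_⟩
      rintro _ ⟨a, ha, rfl⟩ h2 h3
      exact h1 a ha (ordOf_lt_iff.1 h2) (ordOf_lt_iff.1 h3)
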