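import Pool.Agent.Run7.h603.Coc
import Pool.Agent.Run7.h603.Club

/-!
# The coloring axiom for trees: cocycles with values in a finite group are trivial on a club

Assume CAT. Let `R` be a Hausdorff tree of height `ω₁` with countable levels (an Aronszajn tree,
a Kurepa tree, or `ω₁` itself, for instance), let `G` be a finite group, and let `a : R → R → G` be
such that `a t t = 1` and such that for `s ≤ t` the function `p ↦ (a p s)⁻¹ * a p t` is continuous
on `{p | p ≤ s}`. Then, after passing to an uncountable downward closed subset `S` of `R` and to a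
club `E` of heights, `a` is locally a coboundary: there is `κ : R → G` with
`a s t = (κ s)⁻¹ * κ t` for all `s < t` close enough to `t`, whenever `t ∈ S` has limit height and
the heights of `s` and `t` are in `E`.
-/

set_option autoImplicit false

open Set Run7.h603

theorem Pool.Agent.Results.MP_2fee04_lc.FiniteGroupCocycles.result
    (hCAT : CAT) (R : Type) [PartialOrder R] [IsTree R] (hR : IsOmegaOneTree R)
    (G : Type) [Group G] [Finite G] (a : R → R → G) (hdiag : ∀ t, a t t = 1)
    (hcont : ∀ s t : R, s ≤ t → ∀ r ≤ s, Order.IsSuccLimit (ht r) →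
      ∃ q < r, ∀ p, q < p → p < r → (a p s)⁻¹ * a p t = (a r s)⁻¹ * a r t) :
    ∃ (S : Set R) (E : Set Ordinal.{0}) (κ : R → G),
      ¬ S.Countable ∧ IsLowerSet S ∧ IsClubOmegaOne E ∧
        ∀ t ∈ S, Order.IsSuccLimit (ht t) → ht t ∈ E →
          ∃ q < t, ∀ s, q < s → s < t → ht s ∈ E → a s t = (κ s)⁻¹ * κ t := by
  have hL := isOmTree_levOf hR
  have ha : IsCoc (levOf hR) a := by
    refine ⟨hdiag, fun s t hst δ hδ hl => ?_⟩
    have hlev : levOf hR (res (levOf hR) s δ) = δ := hL.lev_res hδ
    have hlim : Order.IsSuccLimit (ht (res (levOf hR) s δ)) := by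
      rw [← ordOf_levOf hR, hlev, isSuccLimit_ordOf]
      exact hl
    obtain ⟨q, hq, h1⟩ := hcont s t hst (res (levOf hR) s δ) (hL.res_le hδ) hlim
    refine ⟨levOf hR q, ?_, fun α hα hαδ => ?_⟩
    · have := hL.mono hq
      rwa [hlev] at this
    · have hle : res (levOf hR) s α ≤ res (levOf hR) s δ := hL.res_mono hαδ.le hδ
      refine h1 (res (levOf hR) s α) ?_ ?_
      · refine hL.lt_of_lev_lt hq.le hle ?_
        rw [hL.lev_res (hαδ.le.trans hδ)]
        exact hα
      · refine lt_of_le_of_ne hle fun he => ?_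
        have h2 := congrArg (levOf hR) he
        rw [hL.lev_res (hαδ.le.trans hδ), hL.lev_res hδ] at h2
        exact hαδ.ne h2
  obtain ⟨S, hS, hS2, E, hE, κ, hκ⟩ := (cat_iff_catL.1 hCAT).cocycle hL ha
  refine ⟨S, ordOf '' E, κ, ?_, hS, isClubOmegaOne_image hE, fun t ht hl htE => ?_⟩
  · intro hc
    refine Om.not_countable_univ ((hc.image (levOf hR)).mono ?_)
    intro β _
    obtain ⟨t, ht, h1⟩ := hS2 β
    exact ⟨t, ht, h1⟩
  · rw [← ordOf_levOf hR] at hl htE
    rw [isSuccLimit_ordOf] at hl
    rw [ordOf_mem_image] at htE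
    obtain ⟨ξ, hξ, h1⟩ := hκ t ht htE hl
    obtain ⟨q, hq, hqξ⟩ := hL.ex hξ
    refine ⟨q, hq, fun s hqs hst hsE => h1 s hst ?_ ?_⟩
    · rw [← ordOf_levOf hR, ordOf_mem_image] at hsE
      exact hsE
    · rw [← hqξ]
      exact hL.mono hqs
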