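import Pool.Agent.Run7.h603.Lvl

/-!
# The coloring axiom for trees reduces to one colouring of the levels

Let `X` be a set of countable ordinals such that `X` and its complement in `ω₁` are uncountable
(for instance the limit ordinals, or the even ordinals, or a closed unbounded set with uncountable
complement, or a stationary co-stationary set). Then CAT (for all Aronszajn trees and all sets of
nodes) is equivalent to its restriction to the sets `K = {t | the height of t is in X}`: every
Aronszajn tree has an uncountable antichain `A` such that either all the meets of distinct elements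
of `A` have their height in `X`, or all of them have their height outside `X`.
-/

set_option autoImplicit false

open Set Run7.h603

theorem Pool.Agent.Results.MP_2fee04_lc.LevelColourings.result (X : Set Ordinal.{0})
    (hX : ¬ {α | α < Ordinal.omega.{0} 1 ∧ α ∈ X}.Countable)
    (hX' : ¬ {α | α < Ordinal.omega.{0} 1 ∧ α ∉ X}.Countable) :
    CAT ↔ ∀ (T : Type) [PartialOrder T] [IsTree T], IsAronszajn T →
      ∃ A : Set T, ¬ A.Countable ∧ IsAntichain (· ≤ ·) A ∧
        ((∀ x ∈ A, ∀ y ∈ A, x ≠ y → ∃ m, ht m ∈ X ∧ IsGLB {x, y} m) ∨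
          (∀ x ∈ A, ∀ y ∈ A, x ≠ y → ∃ m, ht m ∉ X ∧ IsGLB {x, y} m)) := by
  constructor
  · intro h T _ _ hT
    exact h T hT {m | ht m ∈ X}
  · intro h
    rw [cat_iff_catL]
    refine catL_of_LvL (X := {a | ordOf a ∈ X}) ?_ ?_ fun T _ lev hl => ?_
    · intro hc
      refine hX ((hc.image ordOf).mono ?_)
      rintro α ⟨h1, h2⟩
      obtain ⟨a, rfl⟩ := exists_ordOf h1
      exact ⟨a, h2, rfl⟩
    · intro hc
      refine hX' ((hc.image ordOf).mono ?_)
      rintro α ⟨h1, h2⟩
      obtain ⟨a, rfl⟩ := exists_ordOf h1
      exact ⟨a, h2, rfl⟩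
    · have hi : IsTree T := hl.isTree
      obtain ⟨A, hA, hanti, hhom⟩ := h T hl.isAronszajn
      refine ⟨A, hA, hanti, ?_⟩
      rcases hhom with hhom | hhom
      · left
        intro x hx y hy hxy
        obtain ⟨m, hm, hm2⟩ := hhom x hx y hy hxy
        rw [hl.ht_eq] at hm
        exact ⟨m, hm, hm2⟩
      · right
        intro x hx y hy hxy
        obtain ⟨m, hm, hm2⟩ := hhom x hx y hy hxy
        rw [hl.ht_eq] at hm
        exact ⟨m, hm, hm2⟩
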