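import Pool.Agent.Run7.h603.LD

/-!
# The coloring axiom for trees is a dichotomy for level preserving maps

CAT holds if and only if for all Aronszajn trees `S` and `T` and every level preserving function
`f` defined on an uncountable set `D ⊆ S`, with values in `T`, there is an uncountable `E ⊆ D` on
which `f` does not decrease the height of the meet of any two elements, or on which `f` does not
increase the height of the meet of any two elements.
-/

set_option autoImplicit false

open Set Run7.h603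

theorem Pool.Agent.Results.MP_2fee04_lc.LipschitzDichotomy.result :
    CAT ↔ ∀ (S T : Type) [PartialOrder S] [PartialOrder T] [IsTree S] [IsTree T],
      IsAronszajn S → IsAronszajn T → ∀ (D : Set S) (f : S → T), ¬ D.Countable →
        (∀ x ∈ D, ht (f x) = ht x) → ∃ E ⊆ D, ¬ E.Countable ∧
          ((∀ x ∈ E, ∀ y ∈ E, ∃ m n, IsGLB {x, y} m ∧ IsGLB {f x, f y} n ∧ ht m ≤ ht n) ∨
            (∀ x ∈ E, ∀ y ∈ E, ∃ m n, IsGLB {x, y} m ∧ IsGLB {f x, f y} n ∧ ht n ≤ ht m)) := by
  constructor
  · intro h S T _ _ _ _ hS hT D f hD hf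
    obtain ⟨E, hED, hE, hhom⟩ := LDL_of_catL (cat_iff_catL.1 h) S T
      (levOf hS.toIsOmegaOneTree) (levOf hT.toIsOmegaOneTree) (isAron_levOf hS) (isAron_levOf hT)
      D f hD (fun x hx => by
        rw [← ordOf_inj, ordOf_levOf, ordOf_levOf]
        exact hf x hx)
    refine ⟨E, hED, hE, ?_⟩
    rcases hhom with hhom | hhom
    · left
      intro x hx y hy
      obtain ⟨m, n, hm, hn, hle⟩ := hhom x hx y hy
      rw [← ordOf_le_iff, ordOf_levOf, ordOf_levOf] at hle
      exact ⟨m, n, hm, hn, hle⟩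
    · right
      intro x hx y hy
      obtain ⟨m, n, hm, hn, hle⟩ := hhom x hx y hy
      rw [← ordOf_le_iff, ordOf_levOf, ordOf_levOf] at hle
      exact ⟨m, n, hm, hn, hle⟩
  · intro h
    rw [cat_iff_catL]
    refine catL_of_LDL fun S T _ _ lev₀ lev₁ h₀ h₁ D f hD hf => ?_
    have hi₀ : IsTree S := h₀.isTree
    have hi₁ : IsTree T := h₁.isTree
    obtain ⟨E, hED, hE, hhom⟩ := h S T h₀.isAronszajn h₁.isAronszajn D f hD (fun x hx => by
      rw [h₀.ht_eq, h₁.ht_eq, ordOf_inj]
      exact hf x hx)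
    refine ⟨E, hED, hE, ?_⟩
    rcases hhom with hhom | hhom
    · left
      intro x hx y hy
      obtain ⟨m, n, hm, hn, hle⟩ := hhom x hx y hy
      rw [h₀.ht_eq, h₁.ht_eq, ordOf_le_iff] at hle
      exact ⟨m, n, hm, hn, hle⟩
    · right
      intro x hx y hy
      obtain ⟨m, n, hm, hn, hle⟩ := hhom x hx y hy
      rw [h₀.ht_eq, h₁.ht_eq, ordOf_le_iff] at hle
      exact ⟨m, n, hm, hn, hle⟩
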